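import Pool.Agent.H496Z.DP.Data

/-!
Counting labelings consistent with a set of edges of a permutation cover.
-/

open Finset

namespace Pool.Agent.H496Z.DP

variable {m : ℕ}

/-- labelings that follow the permutations along all edges of `A` -/
def cset (σ : Fin 30 → Equiv.Perm (Fin m)) (A : Finset (Fin 30)) : Finset (Fin 11 → Fin m) :=
  univ.filter fun f => ∀ e ∈ A, σ e (f (src e)) = f (dst e)

/-- colourings of the permutation cover -/
def col (σ : Fin 30 → Equiv.Perm (Fin m)) : Finset (Fin 11 → Fin m) :=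
  univ.filter fun f => ∀ e, σ e (f (src e)) ≠ f (dst e)

lemma incl_excl (σ : Fin 30 → Equiv.Perm (Fin m)) :
    ((col σ).card : ℤ) = ∑ A : Finset (Fin 30), (-1 : ℤ) ^ A.card * (cset σ A).card := by
  have h := inclusion_exclusion_card_inf_compl (univ : Finset (Fin 30))
    (fun e => univ.filter fun f : Fin 11 → Fin m => σ e (f (src e)) = f (dst e))
  rw [powerset_univ] at h
  have e1 : col σ = univ.inf fun e =>
      (univ.filter fun f : Fin 11 → Fin m => σ e (f (src e)) = f (dst e))ᶜ := by
    ext f
    simp [col, Finset.mem_inf]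
  have e2 : ∀ A : Finset (Fin 30), cset σ A = A.inf fun e =>
      (univ.filter fun f : Fin 11 → Fin m => σ e (f (src e)) = f (dst e)) := by
    intro A
    ext f
    simp [cset, Finset.mem_inf]
  rw [e1, h]
  simp only [e2]

/-- the relation given by the edges of `A` -/
def rel (A : Finset (Fin 30)) (u v : Fin 11) : Prop := ∃ e ∈ A, src e = u ∧ dst e = v

/-- number of components -/
noncomputable def nc (A : Finset (Fin 30)) : ℕ := Nat.card (Quot (rel A))

noncomputable instance (A : Finset (Fin 30)) : Fintype (Quot (rel A)) := Fintype.ofFinite _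

lemma nc_eq (A : Finset (Fin 30)) : nc A = Fintype.card (Quot (rel A)) := Nat.card_eq_fintype_card

lemma mk_edge {A : Finset (Fin 30)} {e : Fin 30} (he : e ∈ A) :
    Quot.mk (rel A) (src e) = Quot.mk (rel A) (dst e) := Quot.sound ⟨e, he, rfl, rfl⟩

lemma agree (σ : Fin 30 → Equiv.Perm (Fin m)) (A : Finset (Fin 30)) {f g : Fin 11 → Fin m}
    (hf : f ∈ cset σ A) (hg : g ∈ cset σ A) {u v : Fin 11}
    (h : Quot.mk (rel A) u = Quot.mk (rel A) v) : f u = g u ↔ f v = g v := by
  simp only [cset, mem_filter, mem_univ, true_and] at hf hg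
  have := Quot.eqvGen_exact h
  clear h
  induction this with
  | rel x y hxy =>
    obtain ⟨e, he, rfl, rfl⟩ := hxy
    rw [← hf e he, ← hg e he]
    exact (σ e).injective.eq_iff.symm
  | refl x => rfl
  | symm x y _ ih => exact ih.symm
  | trans x y z _ _ ih1 ih2 => exact ih1.trans ih2

lemma card_le_at (σ : Fin 30 → Equiv.Perm (Fin m)) (A : Finset (Fin 30)) (v : Fin 11)
    (S : Finset (Fin m)) (T : Finset (Fin 11 → Fin m)) (hT : T ⊆ cset σ A)
    (hS : ∀ f ∈ T, f v ∈ S) : T.card ≤ S.card * m ^ (nc A - 1) := by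
  classical
  let q0 := Quot.mk (rel A) v
  let r : Quot (rel A) → Fin 11 := fun q => if q = q0 then v else q.out
  have hr : ∀ q, Quot.mk (rel A) (r q) = q := by
    intro q
    by_cases h : q = q0
    · simp only [r, h, if_true]; rfl
    · simp only [r, h, if_false]; exact Quot.out_eq q
  have h1 : T.card ≤ (Fintype.piFinset fun q : Quot (rel A) => if q = q0 then S else univ).card := by
    apply card_le_card_of_injOn (fun f => f ∘ r)
    · intro f hf
      simp only [mem_coe, Fintype.mem_piFinset, Function.comp_apply]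
      intro q
      by_cases h : q = q0
      · simp only [r, h, if_true]; exact hS f hf
      · simp [h]
    · intro f hf g hg hfg
      funext u
      exact (agree σ A (hT hf) (hT hg) (hr (Quot.mk _ u))).mp (congrFun hfg _)
  refine h1.trans (le_of_eq ?_)
  rw [Fintype.card_piFinset, ← Finset.mul_prod_erase univ _ (mem_univ q0), if_pos rfl]
  congr 1
  rw [Finset.prod_congr rfl (g := fun _ => m), prod_const, card_erase_of_mem (mem_univ _),
    card_univ, nc_eq]
  intro q hq
  rw [if_neg (ne_of_mem_erase hq)]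
  simp

lemma nc_pos (A : Finset (Fin 30)) : 1 ≤ nc A := by
  rw [nc_eq]
  exact Fintype.card_pos_iff.mpr ⟨Quot.mk _ 0⟩

lemma nc_le (A : Finset (Fin 30)) : nc A ≤ 11 := by
  rw [nc_eq]
  simpa using Fintype.card_le_of_surjective (Quot.mk (rel A)) Quot.mk_surjective

lemma card_le_pow (σ : Fin 30 → Equiv.Perm (Fin m)) (A : Finset (Fin 30)) :
    (cset σ A).card ≤ m ^ nc A := by
  have := card_le_at σ A 0 univ (cset σ A) subset_rfl (fun _ _ => mem_univ _)
  rw [card_univ, Fintype.card_fin, ← pow_succ', Nat.sub_add_cancel (nc_pos A)] at this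
  exact this

lemma pow_le_card (σ : Fin 30 → Equiv.Perm (Fin m)) (A : Finset (Fin 30))
    (τ : Fin 11 → Equiv.Perm (Fin m)) (B : Finset (Fin m))
    (h : ∀ e ∈ A, ∀ x, x ∉ B → σ e (τ (src e) x) = τ (dst e) x) :
    (m - B.card) ^ nc A ≤ (cset σ A).card := by
  classical
  have h1 : (Fintype.piFinset fun _ : Quot (rel A) => Bᶜ).card ≤ (cset σ A).card := by
    apply card_le_card_of_injOn (fun g v => τ v (g (Quot.mk _ v)))
    · intro g hg
      simp only [mem_coe, Fintype.mem_piFinset, mem_compl] at hg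
      simp only [cset, coe_filter, mem_univ, true_and, Set.mem_ofPred_eq]
      intro e he
      rw [← mk_edge he]
      exact h e he _ (hg _)
    · intro g _ g' _ hgg
      funext q
      obtain ⟨v, rfl⟩ := Quot.mk_surjective q
      exact (τ v).injective (congrFun hgg v)
  rw [Fintype.card_piFinset, prod_const, card_compl, Fintype.card_fin, card_univ, ← nc_eq] at h1
  exact h1

/-- the map on components induced by an inclusion of edge sets -/
def qmap {F A : Finset (Fin 30)} (h : F ⊆ A) : Quot (rel F) → Quot (rel A) :=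
  Quot.map id fun _ _ ⟨e, he, h1, h2⟩ => ⟨e, h he, h1, h2⟩

lemma qmap_surj {F A : Finset (Fin 30)} (h : F ⊆ A) : Function.Surjective (qmap h) := by
  intro q
  obtain ⟨v, rfl⟩ := Quot.mk_surjective q
  exact ⟨Quot.mk _ v, rfl⟩

lemma nc_anti {F A : Finset (Fin 30)} (h : F ⊆ A) : nc A ≤ nc F := by
  rw [nc_eq, nc_eq]
  exact Fintype.card_le_of_surjective _ (qmap_surj h)

lemma rank_aux (A : Finset (Fin 30)) (k : ℕ) :
    (∃ F ⊆ A, F.card < k ∧ ∀ e ∈ A, Quot.mk (rel F) (src e) = Quot.mk (rel F) (dst e)) ∨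
      ∃ F ⊆ A, F.card ≤ k ∧ nc F + k ≤ 11 := by
  induction k with
  | zero => exact Or.inr ⟨∅, empty_subset _, by simp, by simpa using nc_le ∅⟩
  | succ k ih =>
    rcases ih with ⟨F, h1, h2, h3⟩ | ⟨F, h1, h2, h3⟩
    · exact Or.inl ⟨F, h1, by omega, h3⟩
    · by_cases h : ∀ e ∈ A, Quot.mk (rel F) (src e) = Quot.mk (rel F) (dst e)
      · exact Or.inl ⟨F, h1, by omega, h⟩
      · push Not at h
        obtain ⟨e, he, hne⟩ := h
        refine Or.inr ⟨insert e F, insert_subset he h1, (card_insert_le _ _).trans (by omega), ?_⟩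
        have : nc (insert e F) < nc F := by
          rw [nc_eq, nc_eq]
          refine Fintype.card_lt_of_surjective_not_injective _
            (qmap_surj (subset_insert e F)) fun hinj => hne (hinj ?_)
          exact mk_edge (mem_insert_self e F)
        omega

lemma lab_closure (A : Finset (Fin 30)) (k : ℕ) (h : 11 ≤ nc A + k) :
    ∃ F ⊆ A, F.card ≤ k ∧ ∀ lab : Fin 11 → ℕ, (∀ e ∈ F, lab (src e) = lab (dst e)) →
      A ⊆ univ.filter fun e => lab (src e) = lab (dst e) := by
  rcases rank_aux A (k + 1) with ⟨F, h1, h2, h3⟩ | ⟨F, h1, h2, h3⟩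
  · refine ⟨F, h1, by omega, fun lab hlab e he => ?_⟩
    rw [mem_filter]
    refine ⟨mem_univ _, ?_⟩
    have := congrArg (Quot.lift lab (by rintro _ _ ⟨e, he, rfl, rfl⟩; exact hlab e he)) (h3 e he)
    exact this
  · have := nc_anti h1
    omega

lemma card_le_three (A : Finset (Fin 30)) (h : 9 ≤ nc A) : A.card ≤ 3 := by
  obtain ⟨F, -, h2, h3⟩ := lab_closure A 2 (by omega)
  obtain ⟨a, b, hF⟩ := sub_pair F h2
  obtain ⟨lab, h4, h5⟩ := spec2_pair a b
  exact (card_le_card (h3 lab fun e he => h4 e (hF he))).trans h5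

lemma card_eq_four (A : Finset (Fin 30)) (h : 8 ≤ nc A) (hA : ¬ Contr A) : A.card = 4 := by
  obtain ⟨F, -, h2, h3⟩ := lab_closure A 3 (by omega)
  obtain ⟨a, b, c, hF⟩ := sub_triple F h2
  obtain ⟨-, lab, h4, h5⟩ := spec3_triple a b c
  have h6 := h3 lab fun e he => h4 e (hF he)
  rcases h5 with h5 | h5
  · exact absurd (h5.mono h6) hA
  · have h7 := (card_le_card h6).trans h5
    by_contra h8
    exact hA (contr_of_card A (by omega))

lemma le_nc (A : Finset (Fin 30)) (lab : Fin 11 → Fin 11)
    (h : ∀ e ∈ A, lab (src e) = lab (dst e)) : (univ.image lab).card ≤ nc A := by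
  classical
  let g : Quot (rel A) → Fin 11 := Quot.lift lab (by rintro _ _ ⟨e, he, rfl, rfl⟩; exact h e he)
  have : univ.image lab ⊆ univ.image g := by
    intro x hx
    obtain ⟨v, -, rfl⟩ := mem_image.mp hx
    exact mem_image.mpr ⟨Quot.mk _ v, mem_univ _, rfl⟩
  rw [nc_eq]
  exact (card_le_card this).trans (card_image_le.trans (by simp))

lemma exact_two (σ : Fin 30 → Equiv.Perm (Fin m)) (A : Finset (Fin 30)) (h : A.card = 2) :
    m ^ nc A ≤ (cset σ A).card := by
  obtain ⟨a, b, hab, rfl⟩ := card_eq_two.mp h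
  have key : ∀ τ : Fin 11 → Equiv.Perm (Fin m), σ a * τ (src a) = τ (dst a) →
      σ b * τ (src b) = τ (dst b) → m ^ nc {a, b} ≤ (cset σ {a, b}).card := by
    intro τ h1 h2
    have := pow_le_card σ {a, b} τ ∅ (by
      intro e he x _
      simp only [mem_insert, mem_singleton] at he
      rcases he with rfl | rfl
      · rw [← h1]; rfl
      · rw [← h2]; rfl)
    simpa using this
  have na := (src_lt_dst a).ne
  have nb := (src_lt_dst b).ne
  rcases leaf a b hab with ⟨h1, h2⟩ | ⟨h1, h2⟩ <;>
    rcases leaf b a hab.symm with ⟨h3, h4⟩ | ⟨h3, h4⟩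
  · apply key (fun v => if v = dst a then σ a else if v = dst b then σ b else 1) <;>
      simp [na, nb, h1.symm, h2.symm, h3.symm]
  · apply key (fun v => if v = dst a then σ a else if v = src b then (σ b)⁻¹ else 1) <;>
      simp [na, nb.symm, h1.symm, h2.symm, h3.symm]
  · apply key (fun v => if v = src a then (σ a)⁻¹ else if v = dst b then σ b else 1) <;>
      simp [na.symm, nb, h1.symm, h2.symm, h4.symm]
  · apply key (fun v => if v = src a then (σ a)⁻¹ else if v = src b then (σ b)⁻¹ else 1) <;>
      simp [na.symm, nb.symm, h1.symm, h2.symm, h4.symm]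

lemma exact_empty (σ : Fin 30 → Equiv.Perm (Fin m)) : m ^ nc ∅ ≤ (cset σ ∅).card := by
  simpa using pow_le_card σ ∅ (fun _ => 1) ∅ (by simp)

/-- the power of `a` given by a bit -/
def pw (a : Equiv.Perm (Fin m)) (b : Bool) : Equiv.Perm (Fin m) := if b then a else 1

lemma noncontr_card (a : Equiv.Perm (Fin m)) (ha : a * a = 1) (A : Finset (Fin 30))
    (hA : ¬ Contr A) :
    (cset (fun e => pw a (eps e)) A).card
      ≤ 11 * ((univ.filter fun x => a x = x).card * m ^ (nc A - 1)) := by
  classical
  set σ : Fin 30 → Equiv.Perm (Fin m) := fun e => pw a (eps e) with hσ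
  have haa : ∀ x, a (a x) = x := fun x => by
    have := congrArg (fun p : Equiv.Perm (Fin m) => p x) ha
    simpa using this
  have h1 : cset σ A ⊆ univ.biUnion fun v : Fin 11 => (cset σ A).filter fun f => a (f v) = f v := by
    intro f hf
    by_contra hc
    apply hA
    simp only [mem_biUnion, mem_univ, true_and, mem_filter, not_exists, not_and] at hc
    refine ⟨fun v => decide (f v < a (f v)), fun e he => ?_⟩
    have h2 : σ e (f (src e)) = f (dst e) := (mem_filter.mp hf).2 e he
    have h3 := hc (src e) hf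
    simp only [← h2, hσ, pw]
    cases eps e
    · simp
    · simp only [if_true, haa, Bool.xor_true]
      rcases lt_or_gt_of_ne h3 with h4 | h4
      · simp [h4, not_lt.mpr h4.le]
      · simp [h4, not_lt.mpr h4.le]
  refine (card_le_card h1).trans (card_biUnion_le.trans ?_)
  have : ∀ v : Fin 11, ((cset σ A).filter fun f => a (f v) = f v).card
      ≤ (univ.filter fun x => a x = x).card * m ^ (nc A - 1) := fun v =>
    card_le_at σ A v _ _ (filter_subset _ _) fun f hf => by simpa using (mem_filter.mp hf).2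
  refine (sum_le_sum fun v _ => this v).trans ?_
  simp

end Pool.Agent.H496Z.DP
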