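import Mathlib

/-!
An eleven-vertex flag triangulation of the real projective plane: edges, the nontrivial
cohomology class, and finite checks on edge sets of rank at most three.
-/

namespace Pool.Agent.H496Z.DP

/-- smaller end of an edge -/
def srcN (e : ℕ) : ℕ := 703361428687944531863436064917028864 / 16 ^ e % 16
/-- larger end of an edge -/
def dstN (e : ℕ) : ℕ := 880306854643442026354704638378861345 / 16 ^ e % 16
/-- the cocycle representing the nonzero class, as a number -/
def epsN (e : ℕ) : ℕ := 359071744 / 2 ^ e % 2

/-- smaller end of an edge -/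
def src (e : Fin 30) : Fin 11 := Fin.ofNat 11 (srcN e)
/-- larger end of an edge -/
def dst (e : Fin 30) : Fin 11 := Fin.ofNat 11 (dstN e)
/-- the cocycle representing the nonzero class -/
def eps (e : Fin 30) : Bool := epsN e == 1

/-- evaluate the first argument before continuing -/
def force (n : ℕ) (k : ℕ → Bool) : Bool :=
  match n with
  | 0 => k 0
  | n + 1 => k (n + 1)

lemma force_eq (n : ℕ) (k : ℕ → Bool) : force n k = k n := by cases n <;> rfl

/-- digit of a code in base 32: twice the label plus the parity -/
def dig (L x : ℕ) : ℕ := L / 32 ^ x % 32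

/-- union-find step with parity on codes -/
def merge (L e : ℕ) : ℕ :=
  let du := dig L (srcN e)
  let dv := dig L (dstN e)
  if du / 2 == dv / 2 then L else
    (List.range 11).foldl (fun acc x =>
      acc + 32 ^ x * (if dig L x / 2 == dv / 2 then
        2 * (du / 2) + (dig L x + dv + du + epsN e) % 2 else dig L x)) 0

/-- initial code -/
def L0 : ℕ := (List.range 11).foldl (fun acc x => acc + 32 ^ x * (2 * x)) 0

/-- the two ends have the same label -/
def same (L e : ℕ) : Bool := dig L (srcN e) / 2 == dig L (dstN e) / 2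
/-- the parities of the two ends differ by the cocycle -/
def cons (L e : ℕ) : Bool := (dig L (srcN e) + epsN e) % 2 == dig L (dstN e) % 2

/-- the property checked for the code of a triple -/
def good3 (a b c L : ℕ) : Bool :=
  same L a && same L b && same L c && cons L a && cons L b && cons L c &&
    (((List.range 30).all fun e => !same L e || cons L e) ||
      Nat.ble ((List.range 30).countP fun e => same L e) 4)

/-- the property checked for the code of a pair -/
def good2 (a b L : ℕ) : Bool :=
  same L a && same L b && Nat.ble ((List.range 30).countP fun e => same L e) 3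

/-- check of all sorted triples with given first element -/
def chk (a : ℕ) : Bool :=
  force (merge L0 a) fun L1 => (List.range 30).all fun b => Nat.blt b a ||
    force (merge L1 b) fun L2 => good2 a b L2 && (List.range 30).all fun c => Nat.blt c b ||
      force (merge L2 c) fun L3 => good3 a b c L3

theorem chk_all : (List.range 30).all chk = true := by decide +kernel

lemma srcN_lt : ∀ e : Fin 30, (src e : ℕ) = srcN e := by decide +kernel
lemma dstN_lt : ∀ e : Fin 30, (dst e : ℕ) = dstN e := by decide +kernel
lemma epsN_eq : ∀ e : Fin 30, epsN e = if eps e then 1 else 0 := by decide +kernel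
lemma src_lt_dst : ∀ e : Fin 30, src e < dst e := by decide +kernel
lemma edge_inj : ∀ e e' : Fin 30, src e = src e' → dst e = dst e' → e = e' := by decide +kernel
lemma leaf : ∀ e e' : Fin 30, e ≠ e' →
    (dst e ≠ src e' ∧ dst e ≠ dst e') ∨ (src e ≠ src e' ∧ src e ≠ dst e') := by decide +kernel

/-- a potential for the cocycle on a set of edges -/
def Contr (A : Finset (Fin 30)) : Prop :=
  ∃ s : Fin 11 → Bool, ∀ e ∈ A, s (dst e) = xor (s (src e)) (eps e)

lemma count_eq (L : ℕ) : (List.range 30).countP (fun e => same L e)
    = (Finset.univ.filter fun e : Fin 30 => same L e = true).card := by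
  rw [← List.map_coe_finRange_eq_range, List.countP_map, Finset.card_def, Finset.filter_val,
    ← Multiset.countP_eq_card_filter]
  have : (Finset.univ : Finset (Fin 30)).val = (List.finRange 30 : List (Fin 30)) := rfl
  rw [this, Multiset.coe_countP]
  congr 1
  funext e
  simp

lemma same_iff (L : ℕ) (e : Fin 30) :
    same L e = true ↔ dig L (src e) / 2 = dig L (dst e) / 2 := by
  rw [srcN_lt, dstN_lt]; simp [same]

lemma cons_imp (L : ℕ) (e : Fin 30) (h : cons L e = true) :
    (dig L (dst e) % 2 == 1) = xor (dig L (src e) % 2 == 1) (eps e) := by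
  rw [srcN_lt, dstN_lt]
  simp only [cons, beq_iff_eq] at h
  rw [epsN_eq] at h
  rw [← h]
  rcases Nat.mod_two_eq_zero_or_one (dig L (srcN e)) with h1 | h1 <;> cases eps e <;>
    simp [Nat.add_mod, h1]

/-- what the check gives for a set of at most three edges -/
def Spec3 (F : Finset (Fin 30)) : Prop :=
  Contr F ∧ ∃ lab : Fin 11 → ℕ, (∀ e ∈ F, lab (src e) = lab (dst e)) ∧
    (Contr (Finset.univ.filter fun e => lab (src e) = lab (dst e)) ∨
      (Finset.univ.filter fun e => lab (src e) = lab (dst e)).card ≤ 4)

/-- what the check gives for a set of at most two edges -/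
def Spec2 (F : Finset (Fin 30)) : Prop :=
  ∃ lab : Fin 11 → ℕ, (∀ e ∈ F, lab (src e) = lab (dst e)) ∧
      (Finset.univ.filter fun e => lab (src e) = lab (dst e)).card ≤ 3

lemma sorted_spec (a b : Fin 30) (hab : a ≤ b) :
    Spec2 {a, b} ∧ ∀ c : Fin 30, b ≤ c → Spec3 {a, b, c} := by
  have h := List.all_eq_true.mp chk_all a (List.mem_range.mpr a.2)
  rw [chk, force_eq] at h
  have h2 := List.all_eq_true.mp h b (List.mem_range.mpr b.2)
  have e1 : Nat.blt b a = false := by
    rw [Bool.eq_false_iff]; simp only [ne_eq, Nat.blt_eq]; exact not_lt.mpr hab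
  rw [e1, Bool.false_or, force_eq, Bool.and_eq_true] at h2
  obtain ⟨g2, h3⟩ := h2
  set L2 := merge (merge L0 a) b
  constructor
  · simp only [good2, Bool.and_eq_true, Nat.ble_eq, count_eq, same_iff] at g2
    refine ⟨fun v => dig L2 v / 2, ?_, g2.2⟩
    intro e he
    simp only [Finset.mem_insert, Finset.mem_singleton] at he
    rcases he with rfl | rfl
    · exact g2.1.1
    · exact g2.1.2
  · intro c hbc
    have h4 := List.all_eq_true.mp h3 c (List.mem_range.mpr c.2)
    have e2 : Nat.blt c b = false := by
      rw [Bool.eq_false_iff]; simp only [ne_eq, Nat.blt_eq]; exact not_lt.mpr hbc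
    rw [e2, Bool.false_or, force_eq] at h4
    set L3 := merge L2 c
    simp only [good3, Bool.and_eq_true, Bool.or_eq_true, Nat.ble_eq, count_eq] at h4
    obtain ⟨⟨⟨⟨⟨⟨s1, s2⟩, s3⟩, c1⟩, c2⟩, c3⟩, h5⟩ := h4
    refine ⟨⟨fun v => dig L3 v % 2 == 1, ?_⟩, fun v => dig L3 v / 2, ?_, ?_⟩
    · intro e he
      simp only [Finset.mem_insert, Finset.mem_singleton] at he
      rcases he with rfl | rfl | rfl
      · exact cons_imp _ _ c1
      · exact cons_imp _ _ c2
      · exact cons_imp _ _ c3
    · intro e he
      simp only [Finset.mem_insert, Finset.mem_singleton] at he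
      rcases he with rfl | rfl | rfl
      · exact (same_iff _ _).mp s1
      · exact (same_iff _ _).mp s2
      · exact (same_iff _ _).mp s3
    · rcases h5 with h5 | h5
      · left
        refine ⟨fun v => dig L3 v % 2 == 1, fun e he => cons_imp _ _ ?_⟩
        have h6 := List.all_eq_true.mp h5 e (List.mem_range.mpr e.2)
        rw [Finset.mem_filter] at he
        rw [(same_iff _ _).mpr he.2] at h6
        simpa using h6
      · right
        simpa only [same_iff] using h5

lemma spec2_pair (a b : Fin 30) : Spec2 {a, b} := by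
  rcases le_total a b with h | h
  · exact (sorted_spec a b h).1
  · rw [Finset.pair_comm]; exact (sorted_spec b a h).1

lemma spec3_triple (a b c : Fin 30) : Spec3 {a, b, c} := by
  have key : ∀ x y z : Fin 30, x ≤ y → y ≤ z → ({a, b, c} : Finset (Fin 30)) = {x, y, z} →
      Spec3 {a, b, c} := fun x y z h1 h2 e => e ▸ (sorted_spec x y h1).2 z h2
  rcases le_total a b with h1 | h1 <;> rcases le_total b c with h2 | h2 <;>
    rcases le_total a c with h3 | h3
  · exact key a b c h1 h2 rfl
  · exact key a b c h1 h2 rfl
  · exact key a c b h3 h2 (by ext; simp only [Finset.mem_insert, Finset.mem_singleton]; tauto)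
  · exact key c a b h3 h1 (by ext; simp only [Finset.mem_insert, Finset.mem_singleton]; tauto)
  · exact key b a c h1 h3 (by ext; simp only [Finset.mem_insert, Finset.mem_singleton]; tauto)
  · exact key b c a h2 h3 (by ext; simp only [Finset.mem_insert, Finset.mem_singleton]; tauto)
  · exact key c b a h2 h1 (by ext; simp only [Finset.mem_insert, Finset.mem_singleton]; tauto)
  · exact key c b a h2 h1 (by ext; simp only [Finset.mem_insert, Finset.mem_singleton]; tauto)

lemma sub_pair (F : Finset (Fin 30)) (h : F.card ≤ 2) : ∃ a b, F ⊆ {a, b} := by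
  obtain ⟨G, hG, -, hc⟩ := Finset.exists_subsuperset_card_eq (Finset.subset_univ F) h
    (by simp : 2 ≤ (Finset.univ : Finset (Fin 30)).card)
  obtain ⟨a, b, -, rfl⟩ := Finset.card_eq_two.mp hc
  exact ⟨a, b, hG⟩

lemma sub_triple (F : Finset (Fin 30)) (h : F.card ≤ 3) : ∃ a b c, F ⊆ {a, b, c} := by
  obtain ⟨G, hG, -, hc⟩ := Finset.exists_subsuperset_card_eq (Finset.subset_univ F) h
    (by simp : 3 ≤ (Finset.univ : Finset (Fin 30)).card)
  obtain ⟨a, b, c, -, -, -, rfl⟩ := Finset.card_eq_three.mp hc
  exact ⟨a, b, c, hG⟩

lemma Contr.mono {A B : Finset (Fin 30)} (h : A ⊆ B) (hB : Contr B) : Contr A := by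
  obtain ⟨s, hs⟩ := hB
  exact ⟨s, fun e he => hs e (h he)⟩

lemma contr_of_card (A : Finset (Fin 30)) (h : A.card ≤ 3) : Contr A := by
  obtain ⟨a, b, c, hA⟩ := sub_triple A h
  exact (spec3_triple a b c).1.mono hA

end Pool.Agent.H496Z.DP
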