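import Pool.Agent.H496Z.DP.Near

/-!
The DP colour function of the flag projective plane depends on the parity of the number of colours.
-/

open Finset Polynomial

namespace Pool.Agent.H496Z.DP

variable {m : ℕ}

open Classical in
/-- the contribution of the contractible edge sets -/
noncomputable def rr (m : ℕ) (A : Finset (Fin 30)) : ℤ :=
  if Contr A then (-1 : ℤ) ^ A.card * (m : ℤ) ^ nc A else 0

/-- the error term of an edge set -/
noncomputable def term (σ : Fin 30 → Equiv.Perm (Fin m)) (A : Finset (Fin 30)) : ℤ :=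
  (-1 : ℤ) ^ A.card * (cset σ A).card - rr m A

lemma col_eq (σ : Fin 30 → Equiv.Perm (Fin m)) :
    ((col σ).card : ℤ) = ∑ A, rr m A + ∑ A, term σ A := by
  rw [incl_excl, ← sum_add_distrib]
  exact sum_congr rfl fun A _ => by simp [term]

lemma sum_lower (g : Finset (Fin 30) → ℤ) (L M : ℤ) (hL : 0 ≤ L) (h : ∀ A, -L ≤ g A)
    (A0 : Finset (Fin 30)) (h0 : M ≤ g A0) : M - 2 ^ 30 * L ≤ ∑ A, g A := by
  rw [← add_sum_erase univ g (mem_univ A0)]
  have h1 : ∑ _A ∈ univ.erase A0, -L ≤ ∑ A ∈ univ.erase A0, g A := sum_le_sum fun A _ => h A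
  rw [sum_const, nsmul_eq_mul] at h1
  have h2 : ((univ.erase A0).card : ℤ) ≤ 2 ^ 30 := by
    have : (univ.erase A0).card ≤ 2 ^ 30 := by
      refine (card_erase_le).trans (le_of_eq ?_)
      rw [card_univ, Fintype.card_finset, Fintype.card_fin]
    exact_mod_cast this
  nlinarith

lemma exact_contr (a : Equiv.Perm (Fin m)) (ha : a * a = 1) (A : Finset (Fin 30)) (hA : Contr A) :
    term (fun e => pw a (eps e)) A = 0 := by
  have h1 := card_le_pow (fun e => pw a (eps e)) A
  obtain ⟨s, hs⟩ := id hA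
  have haa : ∀ x, a (a x) = x := fun x => by
    have := congrArg (fun p : Equiv.Perm (Fin m) => p x) ha
    simpa using this
  have h2 := pow_le_card (fun e => pw a (eps e)) A (fun v => pw a (s v)) ∅ (by
    intro e he x _
    rw [hs e he]
    cases s (src e) <;> cases eps e <;> simp [pw, haa])
  simp only [card_empty, Nat.sub_zero] at h2
  rw [term, rr, if_pos hA, le_antisymm h1 h2]
  simp

theorem even_case (hm : Even m) :
    ∃ σ : Fin 30 → Equiv.Perm (Fin m), ((col σ).card : ℤ) = ∑ A, rr m A := by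
  have ha : (Fin.revPerm : Equiv.Perm (Fin m)) * Fin.revPerm = 1 := by
    ext x; simp
  refine ⟨fun e => pw Fin.revPerm (eps e), ?_⟩
  rw [col_eq, sum_eq_zero (s := univ) (f := term _), add_zero]
  intro A _
  by_cases hA : Contr A
  · exact exact_contr _ ha A hA
  · have h1 := noncontr_card _ ha A hA
    have h2 : (univ.filter fun x : Fin m => (Fin.revPerm : Equiv.Perm (Fin m)) x = x) = ∅ := by
      apply filter_eq_empty_iff.mpr
      intro x _ hx
      have := congrArg Fin.val hx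
      simp only [Fin.revPerm_apply, Fin.val_rev] at this
      obtain ⟨k, hk⟩ := hm
      have := x.2
      omega
    rw [h2] at h1
    simp only [card_empty, zero_mul, mul_zero, nonpos_iff_eq_zero] at h1
    simp [term, rr, hA, h1]

lemma A0_ends : src 0 = 0 ∧ dst 0 = 1 ∧ src 7 = 1 ∧ dst 7 = 7 ∧ src 28 = 7 ∧ dst 28 = 9 ∧
    src 4 = 0 ∧ dst 4 = 9 ∧ eps 0 = false ∧ eps 7 = false ∧ eps 28 = true ∧ eps 4 = false := by
  decide +kernel

lemma A0_noncontr : ¬ Contr {0, 7, 28, 4} := by
  rintro ⟨s, hs⟩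
  obtain ⟨a1, a2, a3, a4, a5, a6, a7, a8, a9, a10, a11, a12⟩ := A0_ends
  have h1 := hs 0 (by simp)
  have h2 := hs 7 (by simp)
  have h3 := hs 28 (by simp)
  have h4 := hs 4 (by simp)
  simp only [a1, a2, a3, a4, a5, a6, a7, a8, a9, a10, a11, a12] at h1 h2 h3 h4
  rw [h3, h2, h1] at h4
  revert h4
  cases s 0 <;> simp

lemma A0_card (a : Equiv.Perm (Fin m)) :
    (univ.filter fun x => a x = x).card * m ^ 7
      ≤ (cset (fun e => pw a (eps e)) {0, 7, 28, 4}).card := by
  let π : Fin 11 → Fin 8 := ![0, 0, 1, 2, 3, 4, 5, 0, 6, 0, 7]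
  have hπ : Function.Surjective π := by decide
  have h1 : (Fintype.piFinset fun i : Fin 8 =>
      if i = 0 then (univ.filter fun x => a x = x) else univ).card
      ≤ (cset (fun e => pw a (eps e)) {0, 7, 28, 4}).card := by
    apply card_le_card_of_injOn (fun g => g ∘ π)
    · intro g hg
      simp only [mem_coe, Fintype.mem_piFinset] at hg
      have h0 := hg 0
      simp only [if_true, mem_filter, mem_univ, true_and] at h0
      obtain ⟨a1, a2, a3, a4, a5, a6, a7, a8, a9, a10, a11, a12⟩ := A0_ends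
      simp only [cset, coe_filter, mem_univ, true_and, Set.mem_ofPred_eq, mem_insert,
        mem_singleton]
      rintro e (rfl | rfl | rfl | rfl) <;> simp [*, pw, π]
    · intro g _ g' _ h
      exact hπ.injective_comp_right h
  refine le_trans (le_of_eq ?_) h1
  rw [Fintype.card_piFinset, Fin.prod_univ_succ]
  simp

lemma abs_neg_one_pow_mul (k : ℕ) (x : ℤ) (hx : 0 ≤ x) : -x ≤ (-1) ^ k * x := by
  rcases neg_one_pow_eq_or ℤ k with h | h <;> rw [h] <;> linarith

theorem odd_zero (hm : Odd m) (hbig : 11 * 2 ^ 30 < m) (a : Equiv.Perm (Fin m)) (ha : a * a = 1) :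
    0 < ∑ A, term (fun e => pw a (eps e)) A := by
  set f := (univ.filter fun x => a x = x).card with hf
  have hf1 : 1 ≤ f := by
    haveI : Fact (Nat.Prime 2) := ⟨Nat.prime_two⟩
    obtain ⟨x, hx⟩ := Equiv.Perm.exists_fixed_point_of_prime (p := 2) (n := 1) (σ := a)
      (by rw [Fintype.card_fin]; exact hm.not_two_dvd_nat) (by simpa [pow_two] using ha)
    exact card_pos.mpr ⟨x, by simpa using hx⟩
  have h := sum_lower (term fun e => pw a (eps e)) (11 * (f * m ^ 6)) (f * m ^ 7) (by positivity)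
    (by
      intro A
      by_cases hA : Contr A
      · rw [exact_contr a ha A hA]
        have : (0 : ℤ) ≤ 11 * (f * m ^ 6) := by positivity
        linarith
      · rw [term, rr, if_neg hA, sub_zero]
        by_cases h8 : 8 ≤ nc A
        · rw [card_eq_four A h8 hA]
          have : (0 : ℤ) ≤ 11 * (f * m ^ 6) := by positivity
          have : (0 : ℤ) ≤ (cset (fun e => pw a (eps e)) A).card := by positivity
          norm_num
          linarith
        · refine le_trans ?_ (abs_neg_one_pow_mul _ _ (by positivity))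
          have h1 := noncontr_card a ha A hA
          have h2 : m ^ (nc A - 1) ≤ m ^ 6 := Nat.pow_le_pow_right (by omega) (by omega)
          have h3 : (cset (fun e => pw a (eps e)) A).card ≤ 11 * (f * m ^ 6) :=
            h1.trans (by gcongr)
          have h4 : ((cset (fun e => pw a (eps e)) A).card : ℤ) ≤ 11 * (f * m ^ 6) := by
            exact_mod_cast h3
          linarith)
    {0, 7, 28, 4} (by
      rw [term, rr, if_neg A0_noncontr, sub_zero]
      have : ({0, 7, 28, 4} : Finset (Fin 30)).card = 4 := by decide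
      rw [this]
      norm_num
      exact_mod_cast A0_card a)
  refine lt_of_lt_of_le ?_ h
  have h1 : (11 * 2 ^ 30 : ℤ) < m := by exact_mod_cast hbig
  have h2 : (0 : ℤ) < f * m ^ 6 := by
    have : (0 : ℤ) < f := by exact_mod_cast hf1
    have : (0 : ℤ) < m := by linarith
    positivity
  have e : (f * m ^ 7 : ℤ) = m * (f * m ^ 6) := by ring
  rw [e]
  nlinarith

lemma pow_sub_le (m b c : ℕ) : (m : ℤ) ^ c - b * c * m ^ (c - 1) ≤ ((m - b : ℕ) : ℤ) ^ c := by
  have h := abs_pow_sub_pow_le (m : ℤ) ((m - b : ℕ) : ℤ) c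
  have h1 : |(m : ℤ) - ((m - b : ℕ) : ℤ)| ≤ b := by
    rw [abs_le]; constructor <;> omega
  have h2 : max |(m : ℤ)| |((m - b : ℕ) : ℤ)| = m := by
    rw [abs_of_nonneg (by positivity), abs_of_nonneg (by positivity)]
    apply max_eq_left; omega
  rw [h2] at h
  have h3 := le_abs_self ((m : ℤ) ^ c - ((m - b : ℕ) : ℤ) ^ c)
  have h4 : |(m : ℤ) - ((m - b : ℕ) : ℤ)| * c * m ^ (c - 1) ≤ b * c * m ^ (c - 1) := by gcongr
  linarith

theorem pos_case (hbig : 24001 * 2 ^ 30 < m) (ρ : Fin 30 → Equiv.Perm (Fin m)) (K : ℕ)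
    (hK : 1 ≤ K) (B : Finset (Fin m)) (hB : B.card ≤ 3000 * K) (a : Equiv.Perm (Fin m))
    (hBB : ∀ e, ∀ i : Bool, ∀ x, x ∉ B → ρ e (pw a i x) = pw a (xor i (eps e)) x) (t : Fin 20)
    (ht : ((ρ (t3 t))⁻¹ * (ρ (t2 t) * ρ (t1 t))).support.card = K) :
    0 < ∑ A, term ρ A := by
  have hm1 : 1 ≤ m := by omega
  have hKZ : (1 : ℤ) ≤ K := by exact_mod_cast hK
  have h := sum_lower (term ρ) (24001 * (K * m ^ 7)) (K * m ^ 8) (by positivity)
    (by
      intro A
      have hpos : (0 : ℤ) ≤ K * m ^ 7 := by positivity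
      have hle : ((cset ρ A).card : ℤ) ≤ m ^ nc A := by exact_mod_cast card_le_pow ρ A
      by_cases h9 : 9 ≤ nc A
      · have h3 := card_le_three A h9
        rw [term, rr, if_pos (contr_of_card A h3)]
        have h4 : A.card = 0 ∨ A.card = 1 ∨ A.card = 2 ∨ A.card = 3 := by omega
        rcases h4 with h4 | h4 | h4 | h4
        · have h5 : (m : ℤ) ^ nc A ≤ (cset ρ A).card := by
            rw [card_eq_zero.mp h4]
            exact_mod_cast exact_empty ρ
          rw [h4]; norm_num; linarith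
        · rw [h4]; norm_num; linarith
        · have h5 : (m : ℤ) ^ nc A ≤ (cset ρ A).card := by exact_mod_cast exact_two ρ A h4
          rw [h4]; norm_num; linarith
        · rw [h4]; norm_num; linarith
      · by_cases hA : Contr A
        · obtain ⟨s, hs⟩ := id hA
          have h2 := pow_le_card ρ A (fun v => pw a (s v)) B (by
            intro e he x hx
            rw [hs e he]
            exact hBB e _ x hx)
          have h3 : (((m - B.card : ℕ) : ℤ)) ^ nc A ≤ (cset ρ A).card := by exact_mod_cast h2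
          have h4 := pow_sub_le m B.card (nc A)
          have h5 : (B.card * nc A * m ^ (nc A - 1) : ℤ) ≤ (3000 * K) * 8 * m ^ 7 := by
            have a1 : m ^ (nc A - 1) ≤ m ^ 7 := Nat.pow_le_pow_right hm1 (by omega)
            have a2 : B.card * nc A * m ^ (nc A - 1) ≤ (3000 * K) * 8 * m ^ 7 := by
              have : nc A ≤ 8 := by omega
              gcongr
            exact_mod_cast a2
          rw [term, rr, if_pos hA]
          rcases neg_one_pow_eq_or ℤ A.card with h6 | h6 <;> rw [h6] <;> nlinarith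
        · rw [term, rr, if_neg hA, sub_zero]
          by_cases h8 : 8 ≤ nc A
          · rw [card_eq_four A h8 hA]
            have : (0 : ℤ) ≤ (cset ρ A).card := by positivity
            norm_num
            linarith
          · refine le_trans ?_ (abs_neg_one_pow_mul _ _ (by positivity))
            have a1 : (m : ℤ) ^ nc A ≤ m ^ 7 := by
              exact_mod_cast Nat.pow_le_pow_right hm1 (by omega)
            have a2 : (0 : ℤ) ≤ m ^ 7 := by positivity
            nlinarith)
    {t1 t, t2 t, t3 t} (by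
      obtain ⟨b1, b2, b3, b4, b5, b6, b7⟩ := tri_ends t
      set A : Finset (Fin 30) := {t1 t, t2 t, t3 t} with hA
      have h9 : 9 ≤ nc A := by
        rw [← b5]
        apply le_nc
        intro e he
        simp only [hA, mem_insert, mem_singleton] at he
        rcases he with rfl | rfl | rfl
        · simp [b6, b7]
        · simp [← b2]
        · simp [← b1, ← b3, b6, b7]
      have h1 := card_le_at ρ A (src (t1 t))
        ((ρ (t3 t))⁻¹ * (ρ (t2 t) * ρ (t1 t))).supportᶜ (cset ρ A) subset_rfl (by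
          intro f hf
          simp only [cset, mem_filter, mem_univ, true_and] at hf
          have c1 := hf (t1 t) (by simp [hA])
          have c2 := hf (t2 t) (by simp [hA])
          have c3 := hf (t3 t) (by simp [hA])
          rw [mem_compl, Equiv.Perm.mem_support, not_not, Equiv.Perm.mul_apply,
            Equiv.Perm.inv_eq_iff_eq, Equiv.Perm.mul_apply, c1, b2, c2, b1, c3, b3])
      rw [card_compl, ht, Fintype.card_fin] at h1
      have hKm : K ≤ m := by
        rw [← ht]
        simpa using card_le_univ ((ρ (t3 t))⁻¹ * (ρ (t2 t) * ρ (t1 t))).support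
      have h2 : ((cset ρ A).card : ℤ) ≤ (m - K) * m ^ (nc A - 1) := by
        have : (((m - K) * m ^ (nc A - 1) : ℕ) : ℤ) = (m - K) * m ^ (nc A - 1) := by
          push_cast [hKm]; ring
        rw [← this]
        exact_mod_cast h1
      have h3 : (m : ℤ) ^ nc A = m * m ^ (nc A - 1) := by
        rw [← pow_succ', Nat.sub_add_cancel (nc_pos A)]
      have h4 : (m : ℤ) ^ 8 ≤ m ^ (nc A - 1) := by
        exact_mod_cast Nat.pow_le_pow_right hm1 (by omega)
      rw [term, rr, if_pos (contr_of_card A b4.le), b4, h3]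
      norm_num
      nlinarith)
  refine lt_of_lt_of_le ?_ h
  have h1 : (24001 * 2 ^ 30 : ℤ) < m := by exact_mod_cast hbig
  have h2 : (0 : ℤ) < K * m ^ 7 := by
    have : (0 : ℤ) < m := by linarith
    positivity
  have e : (K * m ^ 8 : ℤ) = m * (K * m ^ 7) := by ring
  rw [e]
  nlinarith

theorem odd_case (hm : Odd m) (hbig : 24001 * 2 ^ 30 < m) (σ : Fin 30 → Equiv.Perm (Fin m)) :
    ∑ A, rr m A < ((col σ).card : ℤ) := by
  obtain ⟨ρ, ht, hc⟩ := exists_gauge σ
  rw [← hc, col_eq, lt_add_iff_pos_right]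
  obtain ⟨t, -, hmax⟩ := exists_max_image (univ : Finset (Fin 20))
    (fun t => ((ρ (t3 t))⁻¹ * (ρ (t2 t) * ρ (t1 t))).support.card) univ_nonempty
  set K := ((ρ (t3 t))⁻¹ * (ρ (t2 t) * ρ (t1 t))).support.card with hK
  obtain ⟨h1, h2⟩ := derive (K := K) ρ ht fun s => by
    unfold Near
    rw [one_mul]
    exact hmax s (mem_univ _)
  rcases Nat.eq_zero_or_pos K with h0 | h0
  · have z : ∀ {n : ℕ} {p q : Equiv.Perm (Fin m)}, Near K n p q → p = q := by
      intro n p q h
      unfold Near at h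
      rw [h0, mul_zero, nonpos_iff_eq_zero, card_eq_zero, Equiv.Perm.support_eq_empty_iff,
        inv_mul_eq_one] at h
      exact h
    have e : ρ = fun e => pw (ρ 16) (eps e) := funext fun e => z (h2 e)
    rw [e]
    exact odd_zero hm (by omega) _ (z h1).symm
  · obtain ⟨B, hB, hBB⟩ := bad_set ρ (ρ 16) h1 h2
    exact pos_case hbig ρ K h0 B hB (ρ 16) hBB t rfl

/-- the graph -/
def G : SimpleGraph (Fin 11) where
  Adj u v := ∃ e, (src e = u ∧ dst e = v) ∨ (src e = v ∧ dst e = u)
  symm := ⟨fun _ _ ⟨e, h⟩ => ⟨e, h.symm⟩⟩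
  loopless := ⟨fun _ ⟨e, h⟩ => by
    have := (src_lt_dst e).ne
    rcases h with ⟨h1, h2⟩ | ⟨h1, h2⟩ <;> exact this (h1.trans h2.symm)⟩

/-- the set of numbers of colourings of covers -/
def vals (m : ℕ) : Set ℕ := {k : ℕ | ∃ M : Fin 11 → Fin 11 → Fin m → Fin m → Prop,
  (∀ u v i j, M u v i j → G.Adj u v) ∧
  (∀ u v i j, M u v i j → M v u j i) ∧
  (∀ u v i j j', M u v i j → M u v i j' → j = j') ∧
  (∀ u v i i' j, M u v i j → M u v i' j → i = i') ∧
  k = Set.ncard {f : Fin 11 → Fin m | ∀ u v, ¬ M u v (f u) (f v)}}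

lemma col_mem (σ : Fin 30 → Equiv.Perm (Fin m)) : (col σ).card ∈ vals m := by
  have no : ∀ e e' : Fin 30, src e = dst e' → dst e = src e' → False := by
    intro e e' h1 h2
    have a1 := src_lt_dst e
    have a2 := src_lt_dst e'
    rw [h1, h2] at a1
    exact lt_asymm a1 a2
  refine ⟨fun u v i j => ∃ e, (src e = u ∧ dst e = v ∧ σ e i = j) ∨
    (src e = v ∧ dst e = u ∧ σ e j = i), ?_, ?_, ?_, ?_, ?_⟩
  · rintro u v i j ⟨e, h | h⟩
    · exact ⟨e, Or.inl ⟨h.1, h.2.1⟩⟩
    · exact ⟨e, Or.inr ⟨h.1, h.2.1⟩⟩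
  · rintro u v i j ⟨e, h⟩
    exact ⟨e, h.symm⟩
  · rintro u v i j j' ⟨e, ⟨h1, h2, h3⟩ | ⟨h1, h2, h3⟩⟩ ⟨e', ⟨h4, h5, h6⟩ | ⟨h4, h5, h6⟩⟩
    · obtain rfl := edge_inj e e' (h1.trans h4.symm) (h2.trans h5.symm)
      exact h3.symm.trans h6
    · exact (no e e' (h1.trans h5.symm) (h2.trans h4.symm)).elim
    · exact (no e e' (h1.trans h5.symm) (h2.trans h4.symm)).elim
    · obtain rfl := edge_inj e e' (h1.trans h4.symm) (h2.trans h5.symm)
      exact (σ e).injective (h3.trans h6.symm)
  · rintro u v i i' j ⟨e, ⟨h1, h2, h3⟩ | ⟨h1, h2, h3⟩⟩ ⟨e', ⟨h4, h5, h6⟩ | ⟨h4, h5, h6⟩⟩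
    · obtain rfl := edge_inj e e' (h1.trans h4.symm) (h2.trans h5.symm)
      exact (σ e).injective (h3.trans h6.symm)
    · exact (no e e' (h1.trans h5.symm) (h2.trans h4.symm)).elim
    · exact (no e e' (h1.trans h5.symm) (h2.trans h4.symm)).elim
    · obtain rfl := edge_inj e e' (h1.trans h4.symm) (h2.trans h5.symm)
      exact h3.symm.trans h6
  · rw [← Set.ncard_coe_finset]
    congr 1
    ext f
    simp only [col, coe_filter, mem_univ, true_and, Set.mem_ofPred_eq, not_exists, not_or, not_and]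
    constructor
    · intro h u v e
      constructor
      · rintro rfl rfl; exact h e
      · rintro rfl rfl; exact h e
    · intro h e
      exact (h (src e) (dst e) e).1 rfl rfl

lemma exists_col_le (k : ℕ) (hk : k ∈ vals m) :
    ∃ σ : Fin 30 → Equiv.Perm (Fin m), (col σ).card ≤ k := by
  obtain ⟨M, h1, h2, h3, h4, rfl⟩ := hk
  have : ∀ e : Fin 30, ∃ p : Equiv.Perm (Fin m), ∀ i j, M (src e) (dst e) i j → p i = j := by
    intro e
    obtain ⟨p, hp⟩ := Equiv.Perm.exists_extending_pair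
      (fun x : {x : Fin m × Fin m // M (src e) (dst e) x.1 x.2} => x.1.1) (fun x => x.1.2)
      (by
        rintro ⟨⟨i, j⟩, h⟩ ⟨⟨i', j'⟩, h'⟩ e1
        simp only at e1 h h'
        subst e1
        obtain rfl := h3 _ _ _ _ _ h h'
        rfl)
      (by
        rintro ⟨⟨i, j⟩, h⟩ ⟨⟨i', j'⟩, h'⟩ e1
        simp only at e1 h h'
        subst e1
        obtain rfl := h4 _ _ _ _ _ h h'
        rfl)
    exact ⟨p, fun i j h => hp ⟨(i, j), h⟩⟩
  choose σ hσ using this
  refine ⟨σ, ?_⟩
  rw [← Set.ncard_coe_finset]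
  apply Set.ncard_le_ncard _ (Set.toFinite _)
  intro f hf u v hM
  simp only [col, coe_filter, mem_univ, true_and, Set.mem_ofPred_eq] at hf
  obtain ⟨e, ⟨rfl, rfl⟩ | ⟨rfl, rfl⟩⟩ := h1 _ _ _ _ hM
  · exact hf e (hσ e _ _ hM)
  · exact hf e (hσ e _ _ (h2 _ _ _ _ hM))

open Classical in
/-- the polynomial giving the values for even numbers of colours -/
noncomputable def RP : ℝ[X] :=
  ∑ A : Finset (Fin 30), if Contr A then C ((-1 : ℝ) ^ A.card) * X ^ nc A else 0

lemma RP_eval (m : ℕ) : RP.eval (m : ℝ) = ((∑ A, rr m A : ℤ) : ℝ) := by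
  rw [RP, eval_finsetSum]
  push_cast
  refine sum_congr rfl fun A _ => ?_
  unfold rr
  split_ifs <;> simp

theorem not_poly : ¬ ∃ N : ℕ, ∃ p : ℝ[X], ∀ m : ℕ, N ≤ m →
    ((sInf (vals m) : ℕ) : ℝ) = p.eval (m : ℝ) := by
  rintro ⟨N, p, hp⟩
  have hodd : ∀ m : ℕ, Odd m → N ≤ m → 24001 * 2 ^ 30 < m → 0 < (p - RP).eval (m : ℝ) := by
    intro m hm h1 h2
    rw [eval_sub, ← hp m h1, RP_eval, sub_pos]
    obtain ⟨σ, hσ⟩ := exists_col_le _ (Nat.sInf_mem (s := vals m) ⟨_, col_mem fun _ => 1⟩)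
    have h3 := odd_case hm h2 σ
    have h4 : ((col σ).card : ℤ) ≤ (sInf (vals m) : ℕ) := by exact_mod_cast hσ
    exact_mod_cast lt_of_lt_of_le h3 h4
  have heven : ∀ m : ℕ, Even m → N ≤ m → (p - RP).eval (m : ℝ) ≤ 0 := by
    intro m hm h1
    rw [eval_sub, ← hp m h1, RP_eval, sub_nonpos]
    obtain ⟨σ, hσ⟩ := even_case hm
    rw [← hσ]
    exact_mod_cast Nat.sInf_le (col_mem σ)
  set D := p - RP
  have hD : D ≠ 0 := by
    intro h
    have := hodd (2 * (N + 24001 * 2 ^ 30) + 1) ⟨_, rfl⟩ (by omega) (by omega)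
    rw [h] at this
    simp at this
  obtain ⟨b, hb⟩ := (D.roots.toFinset.finite_toSet).bddAbove
  obtain ⟨k, hk⟩ := exists_nat_gt b
  set m := 2 * (N + 24001 * 2 ^ 30 + k) + 1 with hm
  have h1 := hodd m ⟨_, rfl⟩ (by omega) (by omega)
  have h2 := heven (m + 1) (Odd.add_one ⟨_, rfl⟩) (by omega)
  have h3 : (m : ℝ) ≤ ((m + 1 : ℕ) : ℝ) := by push_cast; linarith
  obtain ⟨x, hx, hx0⟩ := intermediate_value_Icc' h3 D.continuous.continuousOn ⟨h2, h1.le⟩
  have h4 : x ≤ b := hb (by simpa [hD] using hx0)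
  have h5 : (k : ℝ) ≤ m := by exact_mod_cast (by omega : k ≤ m)
  linarith [hx.1]

end Pool.Agent.H496Z.DP
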