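import Pool.Agent.H496Z.DP.Core

/-!
Almost trivial holonomy around triangles forces an almost involution.
-/

open Finset

namespace Pool.Agent.H496Z.DP

variable {m : ℕ}

/-- `p` and `q` differ at no more than `n * K` points -/
def Near (K n : ℕ) (p q : Equiv.Perm (Fin m)) : Prop := (p⁻¹ * q).support.card ≤ n * K

variable {K : ℕ}

lemma card_mul_le (p q : Equiv.Perm (Fin m)) :
    (p * q).support.card ≤ p.support.card + q.support.card :=
  (card_le_card (Equiv.Perm.support_mul_le p q)).trans (card_union_le _ _)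

lemma near_refl (p : Equiv.Perm (Fin m)) : Near K 0 p p := by simp [Near]

lemma Near.symm {n : ℕ} {p q : Equiv.Perm (Fin m)} (h : Near K n p q) : Near K n q p := by
  unfold Near at *
  rw [← Equiv.Perm.support_inv]
  simpa using h

lemma Near.trans {n n' : ℕ} {p q r : Equiv.Perm (Fin m)} (h : Near K n p q) (h' : Near K n' q r) :
    Near K (n + n') p r := by
  unfold Near at *
  have e : p⁻¹ * r = (p⁻¹ * q) * (q⁻¹ * r) := by group
  rw [e, add_mul]
  exact (card_mul_le _ _).trans (add_le_add h h')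

lemma Near.mul {n n' : ℕ} {p q p' q' : Equiv.Perm (Fin m)} (h : Near K n p q)
    (h' : Near K n' p' q') : Near K (n + n') (p * p') (q * q') := by
  unfold Near at *
  have e : (p * p')⁻¹ * (q * q') = (p'⁻¹ * (p⁻¹ * q) * p'⁻¹⁻¹) * (p'⁻¹ * q') := by group
  rw [e, add_mul]
  refine (card_mul_le _ _).trans (add_le_add ?_ h')
  rw [Equiv.Perm.card_support_conj]
  exact h

lemma Near.inv {n : ℕ} {p q : Equiv.Perm (Fin m)} (h : Near K n p q) : Near K n p⁻¹ q⁻¹ := by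
  have h := h.symm
  unfold Near at *
  have e : p⁻¹⁻¹ * q⁻¹ = q * (q⁻¹ * p) * q⁻¹ := by group
  rw [e, Equiv.Perm.card_support_conj]
  exact h

lemma Near.mono {n n' : ℕ} {p q : Equiv.Perm (Fin m)} (h : Near K n p q) (hn : n ≤ n') :
    Near K n' p q := le_trans h (Nat.mul_le_mul_right _ hn)

lemma Near.cast {n n' : ℕ} {p a : Equiv.Perm (Fin m)} {x y : ℤ} (h : Near K n p (a ^ x))
    (hn : n ≤ n') (hx : x = y) : Near K n' p (a ^ y) := hx ▸ h.mono hn

lemma near_tree {p a : Equiv.Perm (Fin m)} (h : p = 1) : Near K 0 p (a ^ (0 : ℤ)) := by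
  rw [h, zpow_zero]; exact near_refl _

lemma step3 {n1 n2 : ℕ} {p1 p2 p3 a : Equiv.Perm (Fin m)} {x y : ℤ} (h1 : Near K n1 p1 (a ^ x))
    (h2 : Near K n2 p2 (a ^ y)) (h : Near K 1 p3 (p2 * p1)) :
    Near K (1 + (n2 + n1)) p3 (a ^ (y + x)) := by
  rw [zpow_add]; exact h.trans (h2.mul h1)

lemma step1 {n3 n2 : ℕ} {p1 p2 p3 a : Equiv.Perm (Fin m)} {z y : ℤ} (h3 : Near K n3 p3 (a ^ z))
    (h2 : Near K n2 p2 (a ^ y)) (h : Near K 1 p3 (p2 * p1)) :
    Near K (n2 + (1 + n3)) p1 (a ^ (-y + z)) := by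
  have := h2.inv.mul (h.symm.trans h3)
  rw [inv_mul_cancel_left] at this
  rw [zpow_add, zpow_neg]; exact this

lemma step2 {n3 n1 : ℕ} {p1 p2 p3 a : Equiv.Perm (Fin m)} {z x : ℤ} (h3 : Near K n3 p3 (a ^ z))
    (h1 : Near K n1 p1 (a ^ x)) (h : Near K 1 p3 (p2 * p1)) :
    Near K ((1 + n3) + n1) p2 (a ^ (z + -x)) := by
  have := (h.symm.trans h3).mul h1.inv
  rw [mul_inv_cancel_right] at this
  rw [zpow_add, zpow_neg]; exact this

/-- first edge of a triangle -/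
def t1 : Fin 20 → Fin 30 := ![0, 0, 1, 2, 2, 5, 6, 7, 9, 9, 10, 13, 13, 14, 17, 17, 18, 21, 21, 22]
/-- second edge of a triangle -/
def t2 : Fin 20 → Fin 30 :=
  ![5, 6, 11, 14, 15, 10, 25, 27, 19, 20, 29, 23, 24, 26, 25, 26, 28, 27, 28, 29]
/-- third edge of a triangle -/
def t3 : Fin 20 → Fin 30 :=
  ![1, 3, 4, 3, 4, 8, 7, 8, 11, 12, 12, 15, 16, 16, 18, 20, 19, 22, 23, 24]

/-- the edges of a spanning tree -/
def tree : List (Fin 30) := [0, 1, 2, 3, 4, 7, 8, 9, 12, 13]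

lemma fin0 {n : ℕ} {p a : Equiv.Perm (Fin m)} {e : Fin 30} (he : eps e = false)
    (h : Near K n p (a ^ (0 : ℤ))) (hn : n ≤ 30) : Near K 30 p (pw a (eps e)) := by
  rw [he, zpow_zero] at *; exact h.mono hn

lemma fin1 {n : ℕ} {p a : Equiv.Perm (Fin m)} {e : Fin 30} (he : eps e = true)
    (h : Near K n p (a ^ (1 : ℤ))) (hn : n ≤ 30) : Near K 30 p (pw a (eps e)) := by
  rw [he, zpow_one] at *; exact h.mono hn

lemma fin2 {n : ℕ} {p a : Equiv.Perm (Fin m)} {e : Fin 30} (he : eps e = true)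
    (h : Near K n p (a ^ (-1 : ℤ))) (hn : n ≤ 10) (hs : Near K 20 1 (a * a)) :
    Near K 30 p (pw a (eps e)) := by
  rw [he]
  rw [zpow_neg, zpow_one] at h
  have := (near_refl (K := K) a⁻¹).mul hs
  rw [mul_one, inv_mul_cancel_left] at this
  exact (h.trans this).mono (by omega)

theorem derive (ρ : Fin 30 → Equiv.Perm (Fin m)) (ht : ∀ e ∈ tree, ρ e = 1)
    (hd : ∀ t, Near K 1 (ρ (t3 t)) (ρ (t2 t) * ρ (t1 t))) :
    Near K 20 1 (ρ 16 * ρ 16) ∧ ∀ e, Near K 30 (ρ e) (pw (ρ 16) (eps e)) := by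
  have h0 : Near K 0 (ρ 0) (ρ 16 ^ (0 : ℤ)) := near_tree (ht 0 (by decide))
  have h1 : Near K 0 (ρ 1) (ρ 16 ^ (0 : ℤ)) := near_tree (ht 1 (by decide))
  have h2 : Near K 0 (ρ 2) (ρ 16 ^ (0 : ℤ)) := near_tree (ht 2 (by decide))
  have h3 : Near K 0 (ρ 3) (ρ 16 ^ (0 : ℤ)) := near_tree (ht 3 (by decide))
  have h4 : Near K 0 (ρ 4) (ρ 16 ^ (0 : ℤ)) := near_tree (ht 4 (by decide))
  have h7 : Near K 0 (ρ 7) (ρ 16 ^ (0 : ℤ)) := near_tree (ht 7 (by decide))
  have h8 : Near K 0 (ρ 8) (ρ 16 ^ (0 : ℤ)) := near_tree (ht 8 (by decide))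
  have h9 : Near K 0 (ρ 9) (ρ 16 ^ (0 : ℤ)) := near_tree (ht 9 (by decide))
  have h12 : Near K 0 (ρ 12) (ρ 16 ^ (0 : ℤ)) := near_tree (ht 12 (by decide))
  have h13 : Near K 0 (ρ 13) (ρ 16 ^ (0 : ℤ)) := near_tree (ht 13 (by decide))
  have h16 : Near K 0 (ρ 16) (ρ 16 ^ (1 : ℤ)) := by rw [zpow_one]; exact near_refl _
  have h5 : Near K 1 (ρ 5) (ρ 16 ^ (0 : ℤ)) := (step2 h1 h0 (hd 0)).cast (by norm_num) (by norm_num)
  have h6 : Near K 1 (ρ 6) (ρ 16 ^ (0 : ℤ)) := (step2 h3 h0 (hd 1)).cast (by norm_num) (by norm_num)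
  have h11 : Near K 1 (ρ 11) (ρ 16 ^ (0 : ℤ)) := (step2 h4 h1 (hd 2)).cast (by norm_num) (by norm_num)
  have h14 : Near K 1 (ρ 14) (ρ 16 ^ (0 : ℤ)) := (step2 h3 h2 (hd 3)).cast (by norm_num) (by norm_num)
  have h15 : Near K 1 (ρ 15) (ρ 16 ^ (0 : ℤ)) := (step2 h4 h2 (hd 4)).cast (by norm_num) (by norm_num)
  have h27 : Near K 1 (ρ 27) (ρ 16 ^ (0 : ℤ)) := (step2 h8 h7 (hd 7)).cast (by norm_num) (by norm_num)
  have h20 : Near K 1 (ρ 20) (ρ 16 ^ (0 : ℤ)) := (step2 h12 h9 (hd 9)).cast (by norm_num) (by norm_num)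
  have h24 : Near K 1 (ρ 24) (ρ 16 ^ (1 : ℤ)) := (step2 h16 h13 (hd 12)).cast (by norm_num) (by norm_num)
  have h10 : Near K 2 (ρ 10) (ρ 16 ^ (0 : ℤ)) := (step2 h8 h5 (hd 5)).cast (by norm_num) (by norm_num)
  have h25 : Near K 2 (ρ 25) (ρ 16 ^ (0 : ℤ)) := (step2 h7 h6 (hd 6)).cast (by norm_num) (by norm_num)
  have h19 : Near K 2 (ρ 19) (ρ 16 ^ (0 : ℤ)) := (step2 h11 h9 (hd 8)).cast (by norm_num) (by norm_num)
  have h23 : Near K 2 (ρ 23) (ρ 16 ^ (0 : ℤ)) := (step2 h15 h13 (hd 11)).cast (by norm_num) (by norm_num)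
  have h26 : Near K 2 (ρ 26) (ρ 16 ^ (1 : ℤ)) := (step2 h16 h14 (hd 13)).cast (by norm_num) (by norm_num)
  have h29 : Near K 3 (ρ 29) (ρ 16 ^ (0 : ℤ)) := (step2 h12 h10 (hd 10)).cast (by norm_num) (by norm_num)
  have h17 : Near K 4 (ρ 17) (ρ 16 ^ (-1 : ℤ)) := (step1 h20 h26 (hd 15)).cast (by norm_num) (by norm_num)
  have h22 : Near K 5 (ρ 22) (ρ 16 ^ (1 : ℤ)) := (step1 h24 h29 (hd 19)).cast (by norm_num) (by norm_num)
  have h18 : Near K 7 (ρ 18) (ρ 16 ^ (-1 : ℤ)) := (step3 h17 h25 (hd 14)).cast (by norm_num) (by norm_num)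
  have h21 : Near K 7 (ρ 21) (ρ 16 ^ (1 : ℤ)) := (step1 h22 h27 (hd 17)).cast (by norm_num) (by norm_num)
  have h28 : Near K 10 (ρ 28) (ρ 16 ^ (1 : ℤ)) := (step2 h19 h18 (hd 16)).cast (by norm_num) (by norm_num)
  have hsq : Near K 20 1 (ρ 16 * ρ 16) := by
    have := h23.symm.trans (step3 h21 h28 (hd 18))
    rw [zpow_zero, zpow_add, zpow_one] at this
    exact this
  refine ⟨hsq, fun e => ?_⟩
  fin_cases e
  · exact fin0 (e := 0) (by decide) h0 (by norm_num)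
  · exact fin0 (e := 1) (by decide) h1 (by norm_num)
  · exact fin0 (e := 2) (by decide) h2 (by norm_num)
  · exact fin0 (e := 3) (by decide) h3 (by norm_num)
  · exact fin0 (e := 4) (by decide) h4 (by norm_num)
  · exact fin0 (e := 5) (by decide) h5 (by norm_num)
  · exact fin0 (e := 6) (by decide) h6 (by norm_num)
  · exact fin0 (e := 7) (by decide) h7 (by norm_num)
  · exact fin0 (e := 8) (by decide) h8 (by norm_num)
  · exact fin0 (e := 9) (by decide) h9 (by norm_num)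
  · exact fin0 (e := 10) (by decide) h10 (by norm_num)
  · exact fin0 (e := 11) (by decide) h11 (by norm_num)
  · exact fin0 (e := 12) (by decide) h12 (by norm_num)
  · exact fin0 (e := 13) (by decide) h13 (by norm_num)
  · exact fin0 (e := 14) (by decide) h14 (by norm_num)
  · exact fin0 (e := 15) (by decide) h15 (by norm_num)
  · exact fin1 (e := 16) (by decide) h16 (by norm_num)
  · exact fin2 (e := 17) (by decide) h17 (by norm_num) hsq
  · exact fin2 (e := 18) (by decide) h18 (by norm_num) hsq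
  · exact fin0 (e := 19) (by decide) h19 (by norm_num)
  · exact fin0 (e := 20) (by decide) h20 (by norm_num)
  · exact fin1 (e := 21) (by decide) h21 (by norm_num)
  · exact fin1 (e := 22) (by decide) h22 (by norm_num)
  · exact fin0 (e := 23) (by decide) h23 (by norm_num)
  · exact fin1 (e := 24) (by decide) h24 (by norm_num)
  · exact fin0 (e := 25) (by decide) h25 (by norm_num)
  · exact fin1 (e := 26) (by decide) h26 (by norm_num)
  · exact fin0 (e := 27) (by decide) h27 (by norm_num)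
  · exact fin1 (e := 28) (by decide) h28 (by norm_num)
  · exact fin0 (e := 29) (by decide) h29 (by norm_num)

lemma bad_set (ρ : Fin 30 → Equiv.Perm (Fin m)) (a : Equiv.Perm (Fin m))
    (hs : Near K 20 1 (a * a)) (h : ∀ e, Near K 30 (ρ e) (pw a (eps e))) :
    ∃ B : Finset (Fin m), B.card ≤ 3000 * K ∧ ∀ e, ∀ i : Bool, ∀ x, x ∉ B →
      ρ e (pw a i x) = pw a (xor i (eps e)) x := by
  have key : ∀ e, ∀ i : Bool, Near K 50 (pw a (xor i (eps e))) (ρ e * pw a i) := by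
    intro e i
    have h1 := ((h e).mul (near_refl (pw a i))).symm
    have h2 : Near K 20 (pw a (xor i (eps e))) (pw a (eps e) * pw a i) := by
      cases i <;> cases eps e
      · simpa [pw] using (near_refl (K := K) (1 : Equiv.Perm (Fin m))).mono (Nat.zero_le 20)
      · simpa [pw] using (near_refl (K := K) a).mono (Nat.zero_le 20)
      · simpa [pw] using (near_refl (K := K) a).mono (Nat.zero_le 20)
      · simpa [pw] using hs
    exact h2.trans h1
  refine ⟨(univ : Finset (Fin 30 × Bool)).biUnion fun p =>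
    ((pw a (xor p.2 (eps p.1)))⁻¹ * (ρ p.1 * pw a p.2)).support, ?_, ?_⟩
  · refine card_biUnion_le.trans ((sum_le_sum fun p _ => key p.1 p.2).trans ?_)
    simp
    omega
  · intro e i x hx
    simp only [mem_biUnion, mem_univ, true_and, not_exists] at hx
    have := hx (e, i)
    rw [Equiv.Perm.mem_support, not_not, Equiv.Perm.mul_apply, Equiv.Perm.inv_eq_iff_eq] at this
    exact this

/-- the gauge transformation along the spanning tree -/
def gauge (σ : Fin 30 → Equiv.Perm (Fin m)) : Fin 11 → Equiv.Perm (Fin m) :=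
  ![1, σ 0, σ 1, σ 2, σ 9 * σ 1, σ 13 * σ 2, σ 3, σ 7 * σ 0, σ 8 * σ 0, σ 4, σ 12 * σ 1]

lemma tree_ends : src 0 = 0 ∧ dst 0 = 1 ∧ src 1 = 0 ∧ dst 1 = 2 ∧ src 2 = 0 ∧ dst 2 = 3 ∧
    src 3 = 0 ∧ dst 3 = 6 ∧ src 4 = 0 ∧ dst 4 = 9 ∧ src 7 = 1 ∧ dst 7 = 7 ∧ src 8 = 1 ∧
    dst 8 = 8 ∧ src 9 = 2 ∧ dst 9 = 4 ∧ src 12 = 2 ∧ dst 12 = 10 ∧ src 13 = 3 ∧ dst 13 = 5 := by
  decide +kernel

theorem exists_gauge (σ : Fin 30 → Equiv.Perm (Fin m)) :
    ∃ ρ : Fin 30 → Equiv.Perm (Fin m), (∀ e ∈ tree, ρ e = 1) ∧ (col ρ).card = (col σ).card := by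
  refine ⟨fun e => (gauge σ (dst e))⁻¹ * σ e * gauge σ (src e), ?_, ?_⟩
  · obtain ⟨a1, a2, a3, a4, a5, a6, a7, a8, a9, a10, a11, a12, a13, a14, a15, a16, a17, a18,
      a19, a20⟩ := tree_ends
    intro e he
    simp only [tree, List.mem_cons, List.not_mem_nil, or_false] at he
    rcases he with rfl | rfl | rfl | rfl | rfl | rfl | rfl | rfl | rfl | rfl <;>
      simp [*, gauge, mul_assoc]
  · apply card_bij (fun f _ v => gauge σ v (f v))
    · intro f hf
      simp only [col, mem_filter, mem_univ, true_and] at hf ⊢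
      intro e h
      apply hf e
      simp [h]
    · intro f _ g _ h
      funext v
      exact (gauge σ v).injective (congrFun h v)
    · intro g hg
      refine ⟨fun v => (gauge σ v)⁻¹ (g v), ?_, by funext v; simp⟩
      simp only [col, mem_filter, mem_univ, true_and] at hg ⊢
      intro e h
      apply hg e
      simpa using h

lemma tri_ends : ∀ t, src (t1 t) = src (t3 t) ∧ dst (t1 t) = src (t2 t) ∧ dst (t2 t) = dst (t3 t) ∧
    ({t1 t, t2 t, t3 t} : Finset (Fin 30)).card = 3 ∧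
    (univ.image fun v : Fin 11 =>
      if v = dst (t1 t) ∨ v = dst (t2 t) then src (t1 t) else v).card = 9 ∧
    src (t1 t) ≠ dst (t1 t) ∧ src (t1 t) ≠ dst (t2 t) := by
  decide +kernel

end Pool.Agent.H496Z.DP
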